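import Pool.Agent.Q113.XU.Stm
import Pool.Agent.Q176.EM.CS

/-!
Project XU (helper113), job NLE.
-/

set_option autoImplicit false

namespace Pool.Agent.Q148.XU

open Finset Pool.Agent.Q54.EM Pool.Agent.Q113.XU

theorem t_NLE : S_NTL → S_EBs → S_NLE := by
  intro hNT hEB k r l h w1 hN hl1 hl2
  have hk0 : (0 : ℝ) < k := by
    have := hN.k6
    exact_mod_cast (by omega : 0 < k)
  have hCS : S_CS := Pool.Agent.Q176.EM.cs
  obtain ⟨c1, c2, c3, c4, -, -, -, -, -⟩ := hCS k r hN.k6 hN.rc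
  obtain ⟨n1, n2, n3, n4, n5, n6, n7, n8, n9, n10, n11, n12, n13, -⟩ :=
    hNT k r l h w1 (r / l) (r / k) (k * (1 - r) / r) (1 - l / k) (l / h - 1) (h / r) _ hN rfl rfl
      rfl rfl rfl rfl rfl
  have ht0 : 0 < 1 - l / k := by
    have : l / k < 1 := (div_lt_one hk0).2 hl2
    linarith
  have ht2 : 1 - l / k ≤ 2 / 10 := by
    have : 8 / 10 < l / k := by
      rw [lt_div_iff₀ hk0]
      exact hl1
    linarith
  rw [n2] at c2 c3 n13
  have hq : r / l ≤ 37 / 100 := by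
    by_contra hq
    push Not at hq
    nlinarith
  have hc45 : 45 / 100 ≤ k * (1 - r) / r := by
    have : 0 < r / l * (1 - (1 - l / k)) := by rw [← n2]; exact n5
    linarith
  exact (hEB (r / l) (1 - l / k) (k * (1 - r) / r) (l / h - 1) n3 hq ht0 n7 hc45 c3 c4 c2 n6
    n13).2 ht2

end Pool.Agent.Q148.XU
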