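import Pool.Agent.Q113.XU.Stm
import Pool.Agent.Q54.EM.All

/-!
Project XU (helper113), job NMO: the numerical facts for a local minimiser
(the proof of `Pool.Agent.Q68.EM.num`, with `Op` in place of `Opt`).
-/

set_option autoImplicit false

namespace Pool.Agent.Q148.XU

open Finset Pool.Agent.Q54.EM Pool.Agent.Q113.XU

theorem t_NMO : S_NMO := by
  intro ι _ p x k r l hk hrc ho
  have hlaw := ho.law
  have hr0 : 0 < r := hrc.1
  have hr1 : r < 1 := hrc.2.1
  have hm := ho.m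
  have hm0 : 0 < mu p x := by rw [hm]; exact hr0
  have hm1 : mu p x < 1 := by rw [hm]; exact hr1
  obtain ⟨hlam, hxl⟩ := t_LMB ι p x k l (by omega) hlaw hm1 ho.kk
  rw [hm] at hlam
  obtain ⟨hpos, hb, -, -⟩ := t_POS ι p x hlaw
  have hW : 0 < PR p x k k := hpos k k le_rfl (by omega) hm1
  have hw1 : 0 < PR p x (k - 1) k := hpos (k - 1) k (by omega) (by omega) hm1
  have hl0 : 0 < l := ho.kk.1
  have hlampos : 0 < lam k p x := div_pos hW hw1
  have hrl : r < l := by
    rw [hlam] at hlampos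
    have h1 : r / l < 1 := by linarith
    rwa [div_lt_one hl0] at h1
  have hWw : PR p x k k = PR p x (k - 1) k * (1 - r / l) := by
    rw [← hlam]
    unfold lam
    rw [mul_div_cancel₀ _ hw1.ne']
  have hva : 0 < va p x := by
    obtain ⟨i, hi⟩ := ho.z
    rw [Pool.Agent.Q68.EM.va_eq p x hlaw.sum]
    refine Finset.sum_pos' (fun j _ => mul_nonneg (hlaw.pos j).le (sq_nonneg _))
      ⟨i, Finset.mem_univ i, mul_pos (hlaw.pos i) ?_⟩
    rw [hi, hm]
    have : (0 - r) ^ 2 = r ^ 2 := by ring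
    rw [this]
    positivity
  obtain ⟨g1, g2, g3, -, -⟩ := t_HL ι p x k l (by omega) hlaw hm0 hm1 ho.kk
  have f1 := t_LH ι p x k (by omega) hlaw hm1
  have f2 := t_XX ι p x k l (by omega) hlaw hm0 hm1 ho.kk hva
  have f3 := t_P0 ι p x k l (by omega) hlaw hm0 hm1 ho.kk hva
  have f4 := t_E3 ι p x k (by omega) hlaw
  have f5 := t_TAF ι p x k l (by omega) hlaw hm0 hm1 ho.kk hva
  have f6 := t_PLF ι p x k l (by omega) hlaw hm0 hm1 ho.kk hva
  have e1 : 1 - (1 - r / l) = r / l := by ring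
  rw [hm, hlam] at f1
  rw [hlam] at f2
  unfold BB at f3
  rw [hm, hlam] at f3
  rw [hm] at f4
  rw [hm, hlam, e1] at f5
  refine ⟨⟨hk, hrc, hl0, hrl, g2, g1, g3, hW, hWw, (hb (k - 1) k).2, f1, f2, f3, ?_, f5, ?_⟩,
    hxl, hva, hlam⟩
  · have h1 : GP p x k k = PR p x k k * hh k p x := by
      unfold hh
      rw [mul_div_cancel₀ _ hW.ne']
    rw [← h1]
    exact f4
  · intro c nu h1 h2 h3 h4 h5 h6 h7 h8
    have e2 : 1 + (l / hh k p x - 1) = l / hh k p x := by ring
    have h9 := f6 (r / l) (l / hh k p x - 1) (1 - k * (1 - r) / hh k p x) c nu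
      (by rw [hlam]; ring) rfl (by rw [hm]) h1 h2 h3 (by rw [e2]; exact h4)
      (by rw [e2]; exact h5) (by rw [e2]; exact h6) (by rw [e2]; exact h7) h8
    exact h9

end Pool.Agent.Q148.XU
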